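import Pool.Agent.H43.DPC.Targets

/-!
# dpc_modules, row INV: consequences of invariance
-/

open MeasureTheory SchwartzMap Filter Topology
open scoped ENNReal ContDiff

namespace Pool.Agent.H43.DPC

noncomputable section

private lemma INV_eval {d : ℕ} (f : S d) : Continuous fun φ : SD d => φ f :=
  WeakDual.eval_continuous f

private lemma INV_dual {d : ℕ} (A : S d →L[ℝ] S d) : Continuous (dualMap A) :=
  WeakDual.continuous_of_continuous_eval fun f => INV_eval (A f)

private lemma INV_moment {d : ℕ} (μ : Measure (SD d)) (T : SD d → SD d) (hT : Continuous T)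
    (hμ : μ.map T = μ) (n : ℕ) (f : Fin n → S d) :
    moment μ f = ∫ φ : SD d, ∏ i, (T φ) (f i) ∂μ := by
  have hc : Continuous fun φ : SD d => ∏ i, φ (f i) :=
    continuous_finsetProd _ fun i _ => INV_eval (f i)
  have h1 : ∫ φ : SD d, ∏ i, φ (f i) ∂(μ.map T) = ∫ φ : SD d, ∏ i, (T φ) (f i) ∂μ :=
    integral_map hT.measurable.aemeasurable hc.aestronglyMeasurable
  rw [hμ] at h1
  exact h1

private lemma INV_Nn {d : ℕ} (μ : Measure (SD d)) (T : SD d → SD d) (hT : Continuous T)
    (hμ : μ.map T = μ) (n : ℕ) (f : S d) :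
    Nn μ n f = (eLpNorm (fun φ : SD d => (T φ) f) n μ).toReal := by
  have h1 : eLpNorm (fun φ : SD d => φ f) n (μ.map T) =
      eLpNorm ((fun φ : SD d => φ f) ∘ T) n μ :=
    eLpNorm_map_measure (INV_eval f).aestronglyMeasurable hT.measurable.aemeasurable
  rw [hμ] at h1
  unfold Nn
  rw [h1]
  rfl

private lemma INV_smul {d : ℕ} (c : ℝ) (A : S d →L[ℝ] S d) :
    Continuous fun φ : SD d => c • dualMap A φ :=
  WeakDual.continuous_of_continuous_eval fun f => by
    show Continuous fun φ : SD d => c * φ (A f)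
    exact continuous_const.mul (INV_eval (A f))

private lemma INV_pow {d : ℕ} (a : ℝ) (t : ℝ) (ht : 0 < t) :
    t ^ ((d : ℝ) - a) * t ^ (a - (d : ℝ)) = 1 := by
  rw [← Real.rpow_add ht]
  have : (d : ℝ) - a + (a - d) = 0 := by ring
  rw [this, Real.rpow_zero]

theorem INV : T_INV where
  Nn_trans := by
    intro d μ hμ n h f
    rw [INV_Nn μ (dualMap (trans h)) (INV_dual _) (hμ h) n f]
    rfl
  Nn_dil := by
    intro d μ a hμ n t ht f
    have h1 := INV_Nn μ (fun φ => ((t : ℝ) ^ (a - d)) • dualMap (dil t) φ) (INV_smul _ _)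
      (hμ t ht) n f
    have h2 : (fun φ : SD d => (((t : ℝ) ^ (a - d)) • dualMap (dil t) φ) f) =
        ((t : ℝ) ^ (a - d)) • fun φ : SD d => φ (dil t f) := rfl
    have hpos : 0 ≤ (t : ℝ) ^ (a - (d : ℝ)) := Real.rpow_nonneg ht.le _
    have h3 : Nn μ n f = (t : ℝ) ^ (a - (d : ℝ)) * Nn μ n (dil t f) := by
      rw [h1, h2, eLpNorm_const_smul, ENNReal.toReal_mul]
      congr 1
      rw [toReal_enorm, Real.norm_of_nonneg hpos]
    rw [h3, ← mul_assoc, INV_pow a t ht, one_mul]
  moment_trans := by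
    intro d μ hμ n h f
    rw [INV_moment μ (dualMap (trans h)) (INV_dual _) (hμ h) n f]
    rfl
  moment_rot := by
    intro d μ hμ n R f
    rw [INV_moment μ (dualMap (rot R)) (INV_dual _) (hμ R) n f]
    rfl
  moment_dil := by
    intro d μ a hμ n t ht f
    have h1 := INV_moment μ (fun φ => ((t : ℝ) ^ (a - d)) • dualMap (dil t) φ) (INV_smul _ _)
      (hμ t ht) n f
    have h2 : (fun φ : SD d => ∏ i, (((t : ℝ) ^ (a - d)) • dualMap (dil t) φ) (f i)) =
        fun φ : SD d => ((t : ℝ) ^ (a - (d : ℝ))) ^ n * ∏ i, φ (dil t (f i)) := by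
      funext φ
      have h3 : ∀ i, (((t : ℝ) ^ (a - d)) • dualMap (dil t) φ) (f i) =
          (t : ℝ) ^ (a - (d : ℝ)) * φ (dil t (f i)) := fun i => rfl
      rw [Finset.prod_congr rfl fun i _ => h3 i, Finset.prod_mul_distrib, Finset.prod_const,
        Finset.card_univ, Fintype.card_fin]
    rw [h2, integral_const_mul] at h1
    rw [h1, ← mul_assoc, ← mul_pow, INV_pow a t ht, one_pow, one_mul]
    rfl
  moment_odd := by
    intro d μ hμ n hn f
    have hc : Continuous fun φ : SD d => -φ :=
      WeakDual.continuous_of_continuous_eval fun f => by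
        show Continuous fun φ : SD d => -(φ f)
        exact (INV_eval f).neg
    have h1 := INV_moment μ (fun φ => -φ) hc hμ n f
    have h2 : (fun φ : SD d => ∏ i, (-φ) (f i)) = fun φ : SD d => -∏ i, φ (f i) := by
      funext φ
      have h3 : ∀ i, (-φ) (f i) = -1 * φ (f i) := fun i => by
        rw [neg_one_mul]; rfl
      rw [Finset.prod_congr rfl fun i _ => h3 i, Finset.prod_mul_distrib, Finset.prod_const,
        Finset.card_univ, Fintype.card_fin, hn.neg_one_pow, neg_one_mul]
    rw [h2, integral_neg] at h1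
    have h4 : moment μ f = -moment μ f := h1
    linarith

end

end Pool.Agent.H43.DPC
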