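import Pool.Agent.H43.DPC.Targets

/-!
# dpc_modules, row UNI: uniform bound of the cells
-/

open MeasureTheory SchwartzMap Filter Topology
open scoped ENNReal ContDiff

namespace Pool.Agent.H43.DPC

noncomputable section

private lemma UNI_cell (d : ℕ) : cell (1 : ℝ) (0 : Fin d → ℤ) = chi d := by
  funext x
  have h : lat (0 : Fin d → ℤ) = (0 : V d) := by
    unfold lat
    ext j
    simp
  unfold cell
  rw [h, inv_one, one_smul, sub_zero]

private lemma UNI_chi (hLAT : T_LAT) (d : ℕ) (f : S d) (x : V d) :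
    smulLeftCLM ℝ (chi d) f x = chi d x * f x := by
  have h := hLAT.cut_apply d 1 one_pos 0 f x
  unfold cut at h
  rw [UNI_cell] at h
  exact h

private lemma UNI_dil {d : ℕ} (u : ℝˣ) (f : S d) (x : V d) :
    dil u f x = f (((u⁻¹ : ℝˣ) : ℝ) • x) := rfl

private lemma UNI_trans {d : ℕ} (h : V d) (f : S d) (x : V d) : trans h f x = f (x - h) := rfl

theorem UNI (_hCPL : T_CPL) (hCTN : T_CTN) (hINV : T_INV) (hLAT : T_LAT) (hSEM : T_SEM) :
    T_UNI := by
  intro d μ _ hM hT a hS n hn f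
  obtain ⟨C, m, hC, hCm⟩ := hCTN d μ hM n hn
  have hcd : ContDiff ℝ ∞ (chi d) := by
    rw [← UNI_cell]; exact hLAT.contDiff d 1 0
  have hcs : HasCompactSupport (chi d) := by
    rw [← UNI_cell]; exact hLAT.compact d 1 one_pos 0
  obtain ⟨C', hC'⟩ := hSEM d f (chi d) hcd hcs m
  refine ⟨C * max C' 0, mul_nonneg hC (le_max_right _ _), fun t k ht ht1 => ?_⟩
  obtain ⟨u, hu⟩ : ∃ u : ℝˣ, (u : ℝ) = t := ⟨Units.mk0 t ht.ne', rfl⟩
  obtain ⟨g, hg⟩ : ∃ g : S d, g = smulLeftCLM ℝ (chi d)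
    (dil u⁻¹ (trans (-((u : ℝ) • lat k)) f)) := ⟨_, rfl⟩
  have hcut : cut t k f = dil u (trans (lat k) g) := by
    ext x
    rw [hLAT.cut_apply d t ht k f x, UNI_dil, UNI_trans, hg, UNI_chi hLAT, UNI_dil, UNI_trans]
    have h1 : ((u⁻¹ : ℝˣ) : ℝ) = t⁻¹ := by rw [Units.val_inv_eq_inv_val, hu]
    rw [inv_inv, hu, h1]
    have h2 : t • (t⁻¹ • x - lat k) - -(t • lat k) = x := by
      rw [smul_sub, smul_smul, mul_inv_cancel₀ ht.ne', one_smul]
      abel
    rw [h2]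
    rfl
  have hb : pm m g ≤ max C' 0 := by
    rw [hg]
    exact (hC' u (lat k) (by rw [hu]; exact ht) (by rw [hu]; exact ht1)).trans (le_max_left _ _)
  have h3 : Nn μ n g ≤ C * max C' 0 := (hCm g).trans (mul_le_mul_of_nonneg_left hb hC)
  rw [hcut, hINV.Nn_dil d μ a hS n u (by rw [hu]; exact ht), hINV.Nn_trans d μ hT, hu, mul_comm]
  exact mul_le_mul_of_nonneg_right h3 (Real.rpow_nonneg ht.le _)

end

end Pool.Agent.H43.DPC
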